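import Mathlib
import Pool.Agent.R341.SG.Stm

/-!
# Piece SG-COL of project SG (MP_2b9fb5_al): few collisions inside the exceptional sets
-/

namespace Pool.Agent.R359.SG

open Finset Pool.Agent.R341.SG

noncomputable section

namespace ColAux

/-- weighted number of the maps which identify `z` and `z'` -/
def SS {n : ℕ} (wt : (Fin n → Fin n) → (Fin n → Fin 3) → ℝ) (b : Fin n → Fin 3) (z z' : Fin n) : ℝ :=
  ∑ f : Fin n → Fin n, wt f b * (if f z = f z' then 1 else 0)

lemma SS_nonneg {n k : ℕ} {wt : (Fin n → Fin n) → (Fin n → Fin 3) → ℝ} (h : IsWt n k wt)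
    (b : Fin n → Fin 3) (z z' : Fin n) : 0 ≤ SS wt b z z' := by
  unfold SS
  refine Finset.sum_nonneg fun f _ => mul_nonneg (h.nonneg f b) ?_
  split_ifs <;> norm_num

lemma SS_perm {n k : ℕ} {wt : (Fin n → Fin n) → (Fin n → Fin 3) → ℝ} (h : IsWt n k wt)
    (b : Fin n → Fin 3) (π : Equiv.Perm (Fin n)) (hπ : b ∘ π = b) (z z' : Fin n) :
    SS wt b z z' = SS wt b (π z) (π z') := by
  unfold SS
  rw [← (Equiv.arrowCongr π.symm (Equiv.refl (Fin n))).sum_comp
    (fun f : Fin n → Fin n => wt f b * (if f z = f z' then (1 : ℝ) else 0))]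
  refine Finset.sum_congr rfl fun f _ => ?_
  have e1 : (Equiv.arrowCongr π.symm (Equiv.refl (Fin n))) f = f ∘ π := by
    funext x; simp
  rw [e1]
  have e2 : wt (f ∘ π) b = wt f b := by
    conv_lhs => rw [← hπ]
    exact h.equiv f b π
  rw [e2]
  simp only [Function.comp_apply]

lemma swap_b {n : ℕ} (b : Fin n → Fin 3) (p q : Fin n) (h : b p = b q) :
    b ∘ (Equiv.swap p q) = b := by
  funext x
  simp only [Function.comp_apply]
  rcases eq_or_ne x p with rfl | h1
  · rw [Equiv.swap_apply_left, h]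
  · rcases eq_or_ne x q with rfl | h2
    · rw [Equiv.swap_apply_right, h]
    · rw [Equiv.swap_apply_of_ne_of_ne h1 h2]

lemma SS_eq {n k : ℕ} {wt : (Fin n → Fin n) → (Fin n → Fin 3) → ℝ} (h : IsWt n k wt)
    (b : Fin n → Fin 3) (z z' x x' : Fin n) (hz : b z = 2) (hz' : b z' = 2) (hx : b x = 2)
    (hx' : b x' = 2) (hne : z ≠ z') (hne' : x ≠ x') : SS wt b z z' = SS wt b x x' := by
  have b1 : b ∘ (Equiv.swap z x) = b := swap_b b z x (by rw [hz, hx])
  rw [SS_perm h b (Equiv.swap z x) b1 z z', Equiv.swap_apply_left]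
  obtain ⟨y, hy⟩ : ∃ y, y = Equiv.swap z x z' := ⟨_, rfl⟩
  have hyx : x ≠ y := by
    intro e
    apply hne
    have : Equiv.swap z x z = Equiv.swap z x z' := by rw [Equiv.swap_apply_left, ← hy]; exact e
    exact (Equiv.swap z x).injective this
  have hby : b y = 2 := by
    have := congrFun b1 z'
    simp only [Function.comp_apply] at this
    rw [hy, this, hz']
  rw [← hy, SS_perm h b (Equiv.swap y x') (swap_b b y x' (by rw [hby, hx'])) x y,
    Equiv.swap_apply_left, Equiv.swap_apply_of_ne_of_ne hyx hne']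

lemma card_eq {n : ℕ} (x x' : Fin n) (h : x ≠ x') :
    (((univ : Finset (Fin n → Fin n)).filter fun f => f x = f x').card : ℝ) * n ≤ (n : ℝ) ^ n := by
  have h1 : ((univ : Finset (Fin n → Fin n)).filter fun f => f x = f x').card * n ≤ n ^ n := by
    have h2 : (((univ : Finset (Fin n → Fin n)).filter fun f => f x = f x') ×ˢ
        (univ : Finset (Fin n))).card ≤ (univ : Finset (Fin n → Fin n)).card := by
      refine Finset.card_le_card_of_injOn (fun p => Function.update p.1 x p.2)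
        (fun _ _ => Finset.mem_coe.mpr (Finset.mem_univ _)) ?_
      intro p hp q hq hpq
      simp only [Finset.coe_product, Set.mem_prod, Finset.mem_coe, Finset.mem_filter,
        Finset.mem_univ, true_and, and_true] at hp hq
      simp only at hpq
      have e1 : p.2 = q.2 := by
        have := congrFun hpq x
        simpa using this
      have e2 : ∀ y, y ≠ x → p.1 y = q.1 y := by
        intro y hy
        have := congrFun hpq y
        rwa [Function.update_of_ne hy, Function.update_of_ne hy] at this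
      refine Prod.ext (funext fun y => ?_) e1
      by_cases hy : y = x
      · rw [hy, hp, hq]
        exact e2 x' (Ne.symm h)
      · exact e2 y hy
    rw [Finset.card_product] at h2
    simpa using h2
  exact_mod_cast h1

/-- the number of collisions -/
def cc {n : ℕ} (f : Fin n → Fin n) : ℝ :=
  ∑ p ∈ (univ : Finset (Fin n)).offDiag, (if f p.1 = f p.2 then (1 : ℝ) else 0)

lemma sum_cc (n : ℕ) (hn : 1 ≤ n) : ∑ f : Fin n → Fin n, cc f ≤ n * (n : ℝ) ^ n := by
  unfold cc
  rw [Finset.sum_comm]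
  have hn0 : (0 : ℝ) < n := by exact_mod_cast hn
  have h1 : ∀ p ∈ (univ : Finset (Fin n)).offDiag,
      ∑ f : Fin n → Fin n, (if f p.1 = f p.2 then (1 : ℝ) else 0) ≤ (n : ℝ) ^ n / n := by
    intro p hp
    rw [Finset.sum_boole, le_div_iff₀ hn0]
    exact card_eq p.1 p.2 (Finset.mem_offDiag.mp hp).2.2
  refine (Finset.sum_le_card_nsmul _ _ _ h1).trans ?_
  rw [nsmul_eq_mul, Finset.offDiag_card, Finset.card_univ, Fintype.card_fin]
  have h2 : ((n * n - n : ℕ) : ℝ) ≤ n * n := by
    have : n * n - n ≤ n * n := Nat.sub_le _ _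
    exact_mod_cast this
  calc ((n * n - n : ℕ) : ℝ) * ((n : ℝ) ^ n / n) ≤ (n * n) * ((n : ℝ) ^ n / n) :=
        mul_le_mul_of_nonneg_right h2 (by positivity)
    _ = n * (n : ℝ) ^ n := by field_simp

end ColAux

open ColAux in
open Classical in
theorem col : SCOL := by
  intro t δ d1 hδ hd1
  obtain ⟨n1, hn1⟩ := exists_nat_ge (2 / d1)
  obtain ⟨n2, hn2⟩ := exists_nat_ge (2 * (t : ℝ) ^ 2 / (d1 ^ 2 * δ))
  refine ⟨max 1 (max n1 n2), fun n hn k wt hwt Z hZ => ?_⟩
  have hn1' : (1 : ℕ) ≤ n := le_trans (le_max_left _ _) hn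
  have hnn : (0 : ℝ) < n := by exact_mod_cast hn1'
  have hg1 : 2 ≤ d1 * n := by
    have h1 : (n1 : ℝ) ≤ n := by
      exact_mod_cast le_trans (le_trans (le_max_left _ _) (le_max_right _ _)) hn
    have h2 : 2 / d1 ≤ n := hn1.trans h1
    rw [div_le_iff₀ hd1] at h2
    linarith
  have hg2 : 2 * (t : ℝ) ^ 2 ≤ d1 ^ 2 * δ * n := by
    have h1 : (n2 : ℝ) ≤ n := by
      exact_mod_cast le_trans (le_trans (le_max_right _ _) (le_max_right _ _)) hn
    have h2 := hn2.trans h1
    rw [div_le_iff₀ (by positivity)] at h2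
    linarith
  -- one status vector
  have hone : ∀ b : Fin n → Fin 3, d1 * n ≤ ((St b 2).card : ℝ) →
      ∑ f : Fin n → Fin n, (if ¬ Set.InjOn f (St b 2 ∩ Z b : Finset (Fin n)) then wt f b else 0) ≤
        (t : ℝ) ^ 2 * (2 / (d1 ^ 2 * n ^ 2)) * ∑ f : Fin n → Fin n, wt f b * cc f := by
    intro b hb
    obtain ⟨D, hD⟩ : ∃ D, D = St b 2 := ⟨_, rfl⟩
    rw [← hD] at hb ⊢
    have hDm : ∀ x, x ∈ D ↔ b x = 2 := by intro x; rw [hD]; simp [St]
    have hcardD : d1 ^ 2 * n ^ 2 / 2 ≤ ((D.offDiag).card : ℝ) := by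
      rw [Finset.offDiag_card]
      have h1 : 1 ≤ D.card := by
        have : (1 : ℝ) ≤ (D.card : ℝ) := by linarith
        exact_mod_cast this
      have h2 : D.card ≤ D.card * D.card := Nat.le_mul_of_pos_left _ h1
      push_cast [Nat.cast_sub h2]
      nlinarith
    -- all the pairs are equivalent
    have hP : ∀ z ∈ D, ∀ z' ∈ D, z ≠ z' → SS wt b z z' ≤
        2 / (d1 ^ 2 * n ^ 2) * ∑ f : Fin n → Fin n, wt f b * cc f := by
      intro z hz z' hz' hne
      have h1 : ((D.offDiag).card : ℝ) * SS wt b z z' = ∑ p ∈ D.offDiag, SS wt b p.1 p.2 := by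
        rw [← nsmul_eq_mul, ← Finset.sum_const]
        refine Finset.sum_congr rfl fun p hp => ?_
        rw [Finset.mem_offDiag] at hp
        exact SS_eq hwt b z z' p.1 p.2 ((hDm z).mp hz) ((hDm z').mp hz') ((hDm _).mp hp.1)
          ((hDm _).mp hp.2.1) hne hp.2.2
      have h2 : ∑ p ∈ D.offDiag, SS wt b p.1 p.2 ≤ ∑ f : Fin n → Fin n, wt f b * cc f := by
        have h3 : ∑ p ∈ D.offDiag, SS wt b p.1 p.2 ≤
            ∑ p ∈ (univ : Finset (Fin n)).offDiag, SS wt b p.1 p.2 :=
          Finset.sum_le_sum_of_subset_of_nonneg (Finset.offDiag_mono (Finset.subset_univ _))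
            fun p _ _ => SS_nonneg hwt b p.1 p.2
        refine h3.trans (le_of_eq ?_)
        unfold SS cc
        rw [Finset.sum_comm]
        exact Finset.sum_congr rfl fun f _ => by rw [Finset.mul_sum]
      have h4 : d1 ^ 2 * n ^ 2 / 2 * SS wt b z z' ≤ ∑ f : Fin n → Fin n, wt f b * cc f :=
        le_trans (mul_le_mul_of_nonneg_right hcardD (SS_nonneg hwt b z z')) (h1 ▸ h2)
      have h5 : 0 < d1 ^ 2 * (n : ℝ) ^ 2 := by positivity
      calc SS wt b z z' = 2 / (d1 ^ 2 * n ^ 2) * (d1 ^ 2 * n ^ 2 / 2 * SS wt b z z') := by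
            field_simp
        _ ≤ _ := mul_le_mul_of_nonneg_left h4 (by positivity)
    -- the union bound over the pairs
    have hU : ∑ f : Fin n → Fin n, (if ¬ Set.InjOn f (D ∩ Z b : Finset (Fin n)) then wt f b else 0) ≤
        ∑ p ∈ (D ∩ Z b).offDiag, SS wt b p.1 p.2 := by
      unfold SS
      rw [Finset.sum_comm]
      refine Finset.sum_le_sum fun f _ => ?_
      rw [← Finset.mul_sum]
      have hs0 : 0 ≤ ∑ p ∈ (D ∩ Z b).offDiag, (if f p.1 = f p.2 then (1 : ℝ) else 0) :=
        Finset.sum_nonneg fun p _ => by split_ifs <;> norm_num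
      by_cases hi : ¬ Set.InjOn f (D ∩ Z b : Finset (Fin n))
      · rw [if_pos hi]
        have : ∃ p ∈ (D ∩ Z b).offDiag, f p.1 = f p.2 := by
          unfold Set.InjOn at hi
          push Not at hi
          obtain ⟨x, hx, y, hy, h1, h2⟩ := hi
          exact ⟨(x, y), Finset.mem_offDiag.mpr ⟨by exact_mod_cast hx, by exact_mod_cast hy, h2⟩, h1⟩
        obtain ⟨p, hp, hpf⟩ := this
        have h1 : (1 : ℝ) ≤ ∑ p ∈ (D ∩ Z b).offDiag, (if f p.1 = f p.2 then (1 : ℝ) else 0) := by
          have := Finset.single_le_sum (f := fun p : Fin n × Fin n =>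
            (if f p.1 = f p.2 then (1 : ℝ) else 0)) (fun p _ => by split_ifs <;> norm_num) hp
          simpa [hpf] using this
        calc wt f b = wt f b * 1 := (mul_one _).symm
          _ ≤ _ := mul_le_mul_of_nonneg_left h1 (hwt.nonneg f b)
      · rw [if_neg hi]
        exact mul_nonneg (hwt.nonneg f b) hs0
    refine hU.trans ?_
    have h6 : ∀ p ∈ (D ∩ Z b).offDiag, SS wt b p.1 p.2 ≤
        2 / (d1 ^ 2 * n ^ 2) * ∑ f : Fin n → Fin n, wt f b * cc f := by
      intro p hp
      rw [Finset.mem_offDiag, Finset.mem_inter, Finset.mem_inter] at hp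
      exact hP p.1 hp.1.1 p.2 hp.2.1.1 hp.2.2
    refine (Finset.sum_le_card_nsmul _ _ _ h6).trans ?_
    rw [nsmul_eq_mul, mul_assoc]
    have hcc0 : ∀ f : Fin n → Fin n, 0 ≤ cc f := fun f =>
      Finset.sum_nonneg fun p _ => by split_ifs <;> norm_num
    refine mul_le_mul_of_nonneg_right ?_ (mul_nonneg (by positivity)
      (Finset.sum_nonneg fun f _ => mul_nonneg (hwt.nonneg f b) (hcc0 f)))
    have h7 : ((D ∩ Z b).offDiag).card ≤ t ^ 2 := by
      rw [Finset.offDiag_card, sq]
      have h8 : (D ∩ Z b).card ≤ t := (Finset.card_le_card Finset.inter_subset_right).trans (hZ b)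
      exact (Nat.sub_le _ _).trans (Nat.mul_le_mul h8 h8)
    exact_mod_cast h7
  -- summation
  have hsum : ∑ f : Fin n → Fin n, ∑ b ∈ (univ : Finset (Fin n → Fin 3)).filter (fun b =>
      d1 * n ≤ ((St b 2).card : ℝ) ∧ ¬ Set.InjOn f (St b 2 ∩ Z b : Finset (Fin n))), wt f b =
      ∑ b ∈ (univ : Finset (Fin n → Fin 3)).filter (fun b => d1 * n ≤ ((St b 2).card : ℝ)),
        ∑ f : Fin n → Fin n,
          (if ¬ Set.InjOn f (St b 2 ∩ Z b : Finset (Fin n)) then wt f b else 0) := by
    rw [Finset.sum_comm]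
    refine Finset.sum_congr rfl fun f _ => ?_
    rw [← Finset.sum_filter, Finset.filter_filter]
  have hcc0 : ∀ f : Fin n → Fin n, 0 ≤ cc f := fun f =>
    Finset.sum_nonneg fun p _ => by split_ifs <;> norm_num
  have key : ∑ b ∈ (univ : Finset (Fin n → Fin 3)).filter (fun b =>
      d1 * n ≤ ((St b 2).card : ℝ)), ∑ f : Fin n → Fin n,
        (if ¬ Set.InjOn f (St b 2 ∩ Z b : Finset (Fin n)) then wt f b else 0) ≤
      δ * (n : ℝ) ^ n := by
    calc _ ≤ ∑ b ∈ (univ : Finset (Fin n → Fin 3)).filter (fun b =>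
          d1 * n ≤ ((St b 2).card : ℝ)),
          (t : ℝ) ^ 2 * (2 / (d1 ^ 2 * n ^ 2)) * ∑ f : Fin n → Fin n, wt f b * cc f :=
          Finset.sum_le_sum fun b hb => hone b (Finset.mem_filter.mp hb).2
      _ ≤ ∑ b : Fin n → Fin 3,
          (t : ℝ) ^ 2 * (2 / (d1 ^ 2 * n ^ 2)) * ∑ f : Fin n → Fin n, wt f b * cc f :=
          Finset.sum_le_sum_of_subset_of_nonneg (Finset.filter_subset _ _) fun b _ _ =>
            mul_nonneg (by positivity)
              (Finset.sum_nonneg fun f _ => mul_nonneg (hwt.nonneg f b) (hcc0 f))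
      _ = (t : ℝ) ^ 2 * (2 / (d1 ^ 2 * n ^ 2)) * ∑ f : Fin n → Fin n, (∑ b, wt f b) * cc f := by
          rw [← Finset.mul_sum, Finset.sum_comm]
          congr 1
          exact Finset.sum_congr rfl fun f _ => by rw [Finset.sum_mul]
      _ ≤ (t : ℝ) ^ 2 * (2 / (d1 ^ 2 * n ^ 2)) * ∑ f : Fin n → Fin n, 1 * cc f := by
          refine mul_le_mul_of_nonneg_left ?_ (by positivity)
          exact Finset.sum_le_sum fun f _ =>
            mul_le_mul_of_nonneg_right (hwt.sum_le f) (hcc0 f)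
      _ ≤ (t : ℝ) ^ 2 * (2 / (d1 ^ 2 * n ^ 2)) * (n * (n : ℝ) ^ n) := by
          refine mul_le_mul_of_nonneg_left ?_ (by positivity)
          simp only [one_mul]
          exact sum_cc n hn1'
      _ = (2 * (t : ℝ) ^ 2 / (d1 ^ 2 * n)) * (n : ℝ) ^ n := by field_simp
      _ ≤ δ * (n : ℝ) ^ n := by
          refine mul_le_mul_of_nonneg_right ?_ (by positivity)
          rw [div_le_iff₀ (by positivity)]
          linarith
  have hfin := hsum.trans_le key
  convert hfin using 5

end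

end Pool.Agent.R359.SG
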